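import Pool.Agent.Helper119.LC.Final

/-! MP_41a716_co: the set `S` contains every point on or above an explicit curve; over the interval
`(3/2, 2)` this curve lies strictly below the lower bound `α + (2 - α) (α - 1) / α` listed in the
problem file, so that bound fails for every `α` in `(3/2, 2)` (for non-recurrent words). -/

open Filter

namespace Pool.Agent.Results.MP_41a716_co.ListedBoundFails

open Pool.Agent.Helper119.LC

theorem below {s : ℝ} (h0 : 0 ≤ s) (h1 : s < 1) (hA : cA 0 s < 2) (hA' : 3 / 2 < cA 0 s) :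
    cB 0 s < cA 0 s + (2 - cA 0 s) * (cA 0 s - 1) / cA 0 s ∧ cA 0 s < cB 0 s := by
  have h1s : 0 < 1 - s := by linarith
  have eA : cA 0 s = (1 - s + s ^ 2) / (1 - s) := by
    unfold cA; field_simp; push_cast; ring
  have hq : 0 < 1 - s + s ^ 2 := by nlinarith [sq_nonneg (s - 1 / 2)]
  rw [eA] at hA hA'
  rw [div_lt_iff₀ h1s] at hA
  rw [lt_div_iff₀ h1s] at hA'
  have hs : 1 / 2 < s := by
    by_contra hcon
    push Not at hcon
    nlinarith
  have hg : 0 < 1 - s - s ^ 2 := by nlinarith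
  have h1p : 0 < 1 + s := by linarith
  have eB : cB 0 s = 1 + s / ((1 - s) * (1 + s)) := by
    unfold cB
    have : (1 : ℝ) - s ^ 2 = (1 - s) * (1 + s) := by ring
    rw [this]
    simp
  have e1 : cA 0 s + (2 - cA 0 s) * (cA 0 s - 1) / cA 0 s - cB 0 s =
      s * (1 - s - s ^ 2) * (2 * s - 1) / ((1 - s) * (1 - s + s ^ 2) * (1 + s)) := by
    rw [eA, eB]
    field_simp
    ring
  have e2 : cB 0 s - cA 0 s = s * (1 - s - s ^ 2) / ((1 - s) * (1 + s)) := by
    rw [eA, eB]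
    field_simp
    ring
  have p1 : 0 < s * (1 - s - s ^ 2) * (2 * s - 1) / ((1 - s) * (1 - s + s ^ 2) * (1 + s)) := by
    have : 0 < 2 * s - 1 := by linarith
    positivity
  have p2 : 0 < s * (1 - s - s ^ 2) / ((1 - s) * (1 + s)) := by positivity
  constructor <;> linarith

theorem result (α : ℝ) (hα : 1 ≤ α) : ∃ (m : ℕ) (s : ℝ), 0 ≤ s ∧ s < 1 ∧
    s ^ (m + 2) + s ^ (m + 1) ≤ 1 ∧ 1 ≤ s ^ (m + 1) + s ^ m ∧ cA m s = α ∧
    (∀ β : ℝ, cB m s ≤ β → (α, β) ∈ LS) ∧
    α ≤ cB m s ∧ cB m s ≤ α + 1 / (4 * (m + 1)) ∧ ((∃ j : ℕ, α = j) → cB m s = α) ∧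
    (3 / 2 < α → α < 2 → α < cB m s ∧ cB m s < α + (2 - α) * (α - 1) / α) := by
  obtain ⟨m, s, h0, h1, h2, h3, h4, h5, h6, h7, h8⟩ := region α hα
  refine ⟨m, s, h0, h1, h2, h3, h4, h5, h6, h7, h8, ?_⟩
  intro ha hb
  have hm : m = 0 := by
    have := (cA_bds h0 h1 ⟨h2, h3⟩).1
    rw [h4] at this
    have h : (m : ℝ) < 1 := by linarith
    have : m < 1 := by exact_mod_cast h
    omega
  subst hm
  have := below h0 h1 (by rw [h4]; exact hb) (by rw [h4]; exact ha)
  rw [h4] at this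
  exact ⟨this.2, this.1⟩

end Pool.Agent.Results.MP_41a716_co.ListedBoundFails
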