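import Pool.Agent.Helper119.LC.Final

/-! MP_41a716_co: the set of pairs `(liminf p(n)/n, limsup p(n)/n)` contains every point on or above
an explicit curve that lies within `1 / (4 (m + 1))` of the diagonal over `[m + 1, m + 2]` and meets
the diagonal at every integer. -/

open Filter

namespace Pool.Agent.Results.MP_41a716_co.RegionAboveCurve

open Pool.Agent.Helper119.LC

theorem result (α : ℝ) (hα : 1 ≤ α) : ∃ (m : ℕ) (s : ℝ), 0 ≤ s ∧ s < 1 ∧
    s ^ (m + 2) + s ^ (m + 1) ≤ 1 ∧ 1 ≤ s ^ (m + 1) + s ^ m ∧ cA m s = α ∧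
    (∀ β : ℝ, cB m s ≤ β → (α, β) ∈ LS) ∧
    α ≤ cB m s ∧ cB m s ≤ α + 1 / (4 * (m + 1)) ∧ ((∃ j : ℕ, α = j) → cB m s = α) :=
  region α hα

end Pool.Agent.Results.MP_41a716_co.RegionAboveCurve
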